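import Pool.Agent.H112Z.PCurvMain

/-!
Generalised interlacing inequalities for Fuchsian operators of any order, with any number of
singular points and any accessory parameters, whose reductions modulo almost all primes have a
full basis of rational solutions.

Sketch. Take a prime `p` with `p l ≡ -1` modulo the common denominator. Among the `n`-tuples of
polynomial solutions modulo `p` that vanish to order at least `γ_s ≈ p (1 + {-c_s})` at each
singular point `s` and have nonzero Wronskian, choose one of least total degree. Its degrees are
distinct modulo `p`, and at each point the orders of vanishing of its span lie in a window of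
length `p`, so they are determined by the exponents. Comparing the degree of the Wronskian with the
number of its zeros and dividing by `p` gives the inequality.
-/

namespace Pool.Agent.Results.MP_aa40d3_nt.AExponentIneq

open Polynomial Pool.Agent.H112Z.PCurv

theorem result {n : ℕ} (b : Fin (n + 1) → ℤ[X]) (hb : b (Fin.last n) ≠ 0)
    (S : Finset (AlgebraicClosure ℚ))
    (hS : ∀ s : AlgebraicClosure ℚ, aeval s (b (Fin.last n)) = 0 → s ∈ S)
    (e : AlgebraicClosure ℚ → Fin n → ℚ) (he : ∀ s ∈ S, ExpAt b s (e s))
    (a : Fin n → ℚ) (ha : ExpInf b a)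
    (hfull : ∃ N : ℕ, ∀ p : ℕ, N < p → ∀ _ : Fact p.Prime, FullModP b p)
    (l : ℕ) (hl1 : ∀ s ∈ S, ∀ j, l.Coprime (e s j).den) (hl2 : ∀ j, l.Coprime (a j).den)
    (c : AlgebraicClosure ℚ → ℝ) :
    ∑ j, Int.fract (-((l : ℝ) * a j) + ∑ s ∈ S, c s) ≤
      ∑ s ∈ S, ∑ j, Int.fract ((l : ℝ) * e s j + c s) :=
  main b hb S hS e he a ha hfull l hl1 hl2 c

end Pool.Agent.Results.MP_aa40d3_nt.AExponentIneq
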